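import Pool.Agent.helper1.FI.SpecQ2

/-!
# Project fi, block Q2, row QD2
-/

set_option autoImplicit false

namespace Pool.Agent.FI

open Pool.Agent.helper58.DC Pool.Agent.DI Pool.Agent.GR Pool.Agent.OB

section

variable {G : Type} [Group G] {p : ℕ} {M : Ideal (integralClosure ℤ ℂ)}

theorem QD2_refl (hM : Setup p M) (z : G → ℂ) : EqmF M z z := fun x => by
  rw [sub_self]
  exact InM.zero hM

theorem QD2_symm {z w : G → ℂ} (h : EqmF M z w) : EqmF M w z := fun x => by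
  have h1 := (h x).neg
  rwa [neg_sub] at h1

theorem QD2_trans (hM : Setup p M) {z w v : G → ℂ} (h : EqmF M z w) (h' : EqmF M w v) : EqmF M z v := fun x => by
  have h1 := (h x).add hM (h' x)
  rwa [sub_add_sub_cancel] at h1

theorem QD2_cv [Finite G] (hM : Setup p M) {z z' w w' : G → ℂ} (h : EqmF M z z') (h' : EqmF M w w')
    (hz : ∀ x, IntAt M (z x)) (hw : ∀ x, IntAt M (w' x)) : EqmF M (cv z w) (cv z' w') := by
  intro x
  unfold cv
  rw [← finsum_sub_distrib (Set.toFinite _) (Set.toFinite _)]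
  refine InM.finsum hM fun u => ?_
  have e : z u * w (u⁻¹ * x) - z' u * w' (u⁻¹ * x) =
      z u * (w (u⁻¹ * x) - w' (u⁻¹ * x)) + (z u - z' u) * w' (u⁻¹ * x) := by ring
  rw [e]
  exact ((h' _).mul_left hM (hz u)).add hM ((h u).mul_right hM (hw _))

theorem QD2_cvp [Finite G] (hM : Setup p M) {z z' : G → ℂ} (h : EqmF M z z') (hz' : ∀ x, IntAt M (z' x))
    (hI : ∀ k x, IntAt M (cvp z k x)) (k : ℕ) : EqmF M (cvp z k) (cvp z' k) := by
  induction k with
  | zero => exact QD2_refl hM _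
  | succ k ih => exact QD2_cv hM ih h (hI k) hz'

theorem QD2_plv [Finite G] (hM : Setup p M) {z z' : G → ℂ} (h : EqmF M z z') (hz' : ∀ x, IntAt M (z' x))
    (hI : ∀ k x, IntAt M (cvp z k x)) (n : ℕ) (c : ℕ → ℂ) (hc : ∀ k, IntAt M (c k)) :
    EqmF M (plv n c z) (plv n c z') := by
  intro x
  unfold plv
  rw [Finset.sum_apply, Finset.sum_apply, ← Finset.sum_sub_distrib]
  refine InM.sum hM _ fun k _ => ?_
  have e : (c k • cvp z (k + 1)) x - (c k • cvp z' (k + 1)) x = c k * (cvp z (k + 1) x - cvp z' (k + 1) x) := by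
    rw [Pi.smul_apply, Pi.smul_apply, smul_eq_mul, smul_eq_mul]
    ring
  rw [e]
  exact (QD2_cvp hM h hz' hI (k + 1) x).mul_left hM (hc k)

theorem QD2_rsk (hM : Setup p M) {K : Subgroup G} {z w : G → ℂ} (h : EqmF M z w) : EqmF M (rsk K z) (rsk K w) := by
  classical
  intro x
  unfold rsk
  split_ifs
  · exact h x
  · rw [sub_zero]
    exact InM.zero hM

theorem QD2_rsk_int (hM : Setup p M) {K : Subgroup G} {z : G → ℂ} (h : ∀ x, IntAt M (z x)) :
    ∀ x, IntAt M (rsk K z x) := by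
  classical
  intro x
  unfold rsk
  split_ifs
  · exact h x
  · exact IntAt.zero hM

theorem QD2_rsk_mem {K : Subgroup G} {z : G → ℂ} {x : G} (hx : x ∈ K) : rsk K z x = z x := by
  unfold rsk
  rw [if_pos hx]

theorem QD2_rsk_not {K : Subgroup G} {z : G → ℂ} {x : G} (hx : x ∉ K) : rsk K z x = 0 := by
  unfold rsk
  rw [if_neg hx]

/-- multiplication by a function supported on a subgroup of `K` commutes with the restriction to `K` -/
theorem QD2_left {K C : Subgroup G} (hCK : C ≤ K) {e a : G → ℂ} (he : ∀ y, y ∉ C → e y = 0) :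
    cv e (rsk K a) = rsk K (cv e a) := by
  funext x
  by_cases hx : x ∈ K
  · rw [QD2_rsk_mem hx]
    unfold cv
    refine finsum_congr fun u => ?_
    by_cases hu : u ∈ C
    · rw [QD2_rsk_mem (K.mul_mem (K.inv_mem (hCK hu)) hx)]
    · rw [he u hu, zero_mul, zero_mul]
  · rw [QD2_rsk_not hx]
    unfold cv
    rw [← finsum_zero (α := G)]
    refine finsum_congr fun u => ?_
    by_cases hu : u ∈ C
    · have h1 : u⁻¹ * x ∉ K := by
        intro h
        have h2 := K.mul_mem (hCK hu) h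
        rw [mul_inv_cancel_left] at h2
        exact hx h2
      rw [QD2_rsk_not h1, mul_zero]
    · rw [he u hu, zero_mul]

end

theorem QD2 (hIDP : IDP_stmt) (hSA2 : SA2_stmt) (hBRQ : BRQ_stmt) (hBRK : BRK_stmt) (hPLF : PLF_stmt)
    (hCVF : CVF_stmt) : QD2_stmt := by
  classical
  intro p M hM G _ _ H Q K C hQ hK hCK a e h ha0 haI hQa hCa he0 hea hhCF hhI hhh hrh n c N₀ hcI hidem hN
  obtain ⟨v1, -, -, v4, v5, v6, -, -, -, -, v11, -⟩ := hCVF G
  have hPa := hPLF G a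
  set r := rsk K a with hr
  have hr0 : ∀ x, x ∉ K → r x = 0 := fun x hx => QD2_rsk_not hx
  have hrI : ∀ x, IntAt M (r x) := QD2_rsk_int hM haI
  set b := cv r h with hb
  have hb0 : ∀ x, x ∉ K → b x = 0 := fun x hx => v6 K r h hr0 hhCF.2 x hx
  have hbI : ∀ x, IntAt M (b x) := v11 p M hM r h hrI hhI
  have hPb := hPLF G b
  obtain ⟨n', c', hc'I, hIdm, N₁, hN₁⟩ := hIDP p M hM G K b hb0 hbI
  have hbh : cv b h = b := by rw [hb, v1, hhh]
  have her : cv e r = r := by rw [hr, QD2_left hCK he0, hea]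
  have heb : cv e b = b := by rw [hb, ← v1, her]
  have hrC : ∀ s ∈ C, ∀ x, r (s * x * s⁻¹) = r x := by
    intro s hs x
    by_cases hx : x ∈ K
    · have h1 : s * x * s⁻¹ ∈ K := K.mul_mem (K.mul_mem (hCK hs) hx) (K.inv_mem (hCK hs))
      rw [hr, QD2_rsk_mem hx, QD2_rsk_mem h1]
      exact hCa s hs x
    · have h1 : s * x * s⁻¹ ∉ K := by
        intro h2
        have h3 := K.mul_mem (K.mul_mem (K.inv_mem (hCK hs)) h2) (hCK hs)
        have h4 : s⁻¹ * (s * x * s⁻¹) * s = x := by group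
        rw [h4] at h3
        exact hx h3
      rw [hr, QD2_rsk_not hx, QD2_rsk_not h1]
  have hbC : Inv C b := fun s hs x => v5 s r h (hrC s hs) (hhCF.1 s (hCK hs)) x
  refine ⟨plv n' c' b, hIdm, (hPb.2.2.2.2.1 C hbC n' c').2, (hPb.2.2.2.2.2.1 e).1 heb n' c',
    (hPb.2.2.2.2.2.1 h).2 hbh n' c', ?_⟩
  -- integrality of the powers
  have hone : ∀ k : ℕ, IntAt M ((fun _ : ℕ => (1 : ℂ)) k) := fun _ => IntAt.one hM
  have hcvpI : ∀ z : G → ℂ, (∀ x, IntAt M (z x)) → ∀ k x, IntAt M (cvp z k x) := fun z hz k x =>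
    ((hPLF G z).2.2.2.2.2.2.1 p M hM hz k (fun _ => 1) hone x).1
  have hplvI : ∀ z : G → ℂ, (∀ x, IntAt M (z x)) → ∀ (m : ℕ) (d : ℕ → ℂ), (∀ k, IntAt M (d k)) →
      ∀ x, IntAt M (plv m d z x) := fun z hz m d hd x =>
    ((hPLF G z).2.2.2.2.2.2.1 p M hM hz m d hd x).2
  have hrb : EqmF M r b := QD2_symm hrh
  -- the restriction of `i`
  have hi0 : ∀ x, x ∉ H → plv n c a x = 0 := fun x hx => hPa.2.2.2.1 H ha0 n c x hx
  have hiI : ∀ x, IntAt M (plv n c a x) := hplvI a haI n c hcI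
  have hiQ : Inv Q (plv n c a) := (hPa.2.2.2.2.1 Q hQa n c).2
  have hBK := hBRK p M hM G H Q hQ a ha0 haI hQa
  rw [← hK] at hBK
  have h1 : EqmF M (rsk K (plv n c a)) (plv n c b) :=
    QD2_trans hM (hBK.2 n c hcI) (QD2_plv hM hrb hbI (hcvpI r hrI) n c hcI)
  have hBQ := hBRQ p M hM G H Q hQ
  rw [← hK] at hBQ
  have hi'I : ∀ x, IntAt M (plv n c b x) := hplvI b hbI n c hcI
  have hriI : ∀ x, IntAt M (rsk K (plv n c a) x) := QD2_rsk_int hM hiI
  have h2 : EqmF M (cv (plv n c b) (plv n c b)) (plv n c b) := by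
    have q1 : EqmF M (cv (plv n c b) (plv n c b)) (cv (rsk K (plv n c a)) (rsk K (plv n c a))) :=
      QD2_cv hM (QD2_symm h1) (QD2_symm h1) hi'I hriI
    have q2 : EqmF M (rsk K (cv (plv n c a) (plv n c a))) (cv (rsk K (plv n c a)) (rsk K (plv n c a))) :=
      hBQ _ _ hi0 hi0 hiI hiI hiQ hiQ
    rw [hidem] at q2
    exact QD2_trans hM q1 (QD2_trans hM (QD2_symm q2) h1)
  -- the powers
  have hsup : ∀ k : ℕ, ∀ x, x ∉ H → cvp a (k + 1) x = 0 := by
    intro k
    induction k with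
    | zero =>
      intro x hx
      have q : cvp a (0 + 1) = cv dl a := rfl
      rw [q, (v4 a).1]
      exact ha0 x hx
    | succ k ih =>
      intro x hx
      exact v6 H (cvp a (k + 1)) a ih ha0 x hx
  set N := N₀ + N₁ + 1 with hNdef
  have h3 : EqmF M (rsk K (cvp a N)) (cvp b N) :=
    QD2_trans hM (fun x => hBK.1 N x (by omega)) (QD2_cvp hM hrb hbI (hcvpI r hrI) N)
  have hbN : ∀ x, IntAt M (cvp b N x) := hcvpI b hbI N
  have h4 : EqmF M (cvp b N) (cv (cvp b N) (plv n c b)) := by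
    have q1 : EqmF M (rsk K (cvp a N)) (rsk K (cv (cvp a N) (plv n c a))) := QD2_rsk hM (hN N (by omega))
    have q2 : EqmF M (rsk K (cv (cvp a N) (plv n c a))) (cv (rsk K (cvp a N)) (rsk K (plv n c a))) :=
      hBQ _ _ (fun x hx => hsup (N₀ + N₁) x hx) hi0 (hcvpI a haI N) hiI (hPa.2.2.2.2.1 Q hQa N c).1 hiQ
    have q3 : EqmF M (cv (rsk K (cvp a N)) (rsk K (plv n c a))) (cv (cvp b N) (plv n c b)) :=
      QD2_cv hM h3 h1 (QD2_rsk_int hM (hcvpI a haI N)) hi'I
    exact QD2_trans hM (QD2_symm h3) (QD2_trans hM q1 (QD2_trans hM q2 q3))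
  have h5 : EqmF M (plv n c b) (plv n' c' b) := by
    refine hSA2 p M hM G b hbI n c n' c' hcI hc'I h2 (fun x => ?_) N h4 (hN₁ N (by omega))
    rw [hIdm.idem, sub_self]
    exact InM.zero hM
  intro y hy
  have h6 := QD2_trans hM h1 h5 y
  rwa [QD2_rsk_mem hy] at h6

end Pool.Agent.FI
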