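import Pool.Agent.helper59.FI.SpecB

/-!
# Project fi, block A2, row EXT: extension of subpairs
-/

set_option autoImplicit false

namespace Pool.Agent.FI

open Pool.Agent.helper58.DC Pool.Agent.DI Pool.Agent.GR Pool.Agent.OB

/-- A proper subgroup of a finite `p`-group has index divisible by `p`. -/
theorem EXT_index {p : ℕ} (hp : p.Prime) {Γ : Type} [Group Γ] [Finite Γ] (hΓ : IsPGroup p Γ) (S : Subgroup Γ)
    (hS : S ≠ ⊤) : p * Nat.card S ∣ Nat.card Γ := by
  haveI := Fact.mk hp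
  obtain ⟨n, hn⟩ := hΓ.index S
  have hn0 : n ≠ 0 := by
    intro h
    rw [h, pow_zero, Subgroup.index_eq_one] at hn
    exact hS hn
  rw [← S.card_mul_index, hn, mul_comm (Nat.card S)]
  exact Nat.mul_dvd_mul_right (dvd_pow_self p hn0) _

/-- conjugation by the elements of a subgroup -/
noncomputable def EXT_rho {G : Type} [Group G] (R : Subgroup G) : R →* Equiv.Perm G :=
  (MulAut.toPerm G).comp (MulAut.conj.comp R.subtype)

theorem EXT_rho_apply {G : Type} [Group G] (R : Subgroup G) (r : R) (x : G) :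
    EXT_rho R r x = (r : G) * x * (r : G)⁻¹ := rfl

/-- the stabiliser of an element -/
def EXT_stab {G : Type} [Group G] (R : Subgroup G) (x : G) : Subgroup R :=
  (Subgroup.centralizer {x}).subgroupOf R

theorem EXT_mem_stab {G : Type} [Group G] (R : Subgroup G) (x : G) (r : R) :
    r ∈ EXT_stab R x ↔ EXT_rho R r x = x := by
  rw [EXT_rho_apply]
  unfold EXT_stab
  rw [Subgroup.mem_subgroupOf, Subgroup.mem_centralizer_singleton_iff]
  constructor
  · intro h
    rw [h]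
    group
  · intro h
    calc (r : G) * x = (r : G) * x * (r : G)⁻¹ * r := by group
      _ = x * r := by rw [h]

/-- An invariant function of a `p`-group of conjugations which is zero on the centraliser. -/
theorem EXT_orb (hORD : ORD_stmt) {p : ℕ} {M : Ideal (integralClosure ℤ ℂ)} (hM : Setup p M) {G : Type} [Group G]
    [Finite G] (R : Subgroup G) (hR : IsPGroup p R) (F : G → ℂ) (hF : ∀ x, IntAt M (F x))
    (hinv : ∀ r ∈ R, ∀ x, F (r * x * r⁻¹) = F x) (h0 : ∀ x ∈ cz R, F x = 0) : InM M (∑ᶠ x, F x) := by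
  have h1 := (hORD p M hM R G (EXT_rho R) 1 one_ne_zero F hF
    (fun g x => by rw [EXT_rho_apply]; exact hinv g g.2 x)).2.1 (fun x hx => ?_)
  · rw [Nat.cast_one, div_one] at h1
    exact h1
  · rw [one_mul]
    have e : Nat.card {g : R // EXT_rho R g x = x} = Nat.card (EXT_stab R x) :=
      Nat.card_congr (Equiv.subtypeEquivRight fun g => (EXT_mem_stab R x g).symm)
    rw [e]
    refine EXT_index hM.pr hR _ fun htop => hx (h0 x ?_)
    rw [Subgroup.mem_centralizer_iff]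
    intro r hr
    have h2 : (⟨r, hr⟩ : R) ∈ EXT_stab R x := by
      rw [htop]
      exact Subgroup.mem_top _
    unfold EXT_stab at h2
    rw [Subgroup.mem_subgroupOf, Subgroup.mem_centralizer_singleton_iff] at h2
    exact h2

theorem EXT (hEXA : EXA_stmt) (hEQP : EQP_stmt) (hORD : ORD_stmt) (hIVS : IVS_stmt) (hIDM : IDM_stmt)
    (hEIN : EIN_stmt) (hEXP : EXP_stmt) (hCVF : CVF_stmt) (hCCI : CCI_stmt) (hBCL : BCL_stmt) : EXT_stmt := by
  intro p M hM G _ _ χ hχ R hRp hRc θ hθ hind hdvd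
  classical
  haveI := Fintype.ofFinite G
  obtain ⟨y, hy, R', hR'p, hRR', hR'y, hR'n, hne⟩ := hEXA p M hM G R hRp hRc θ hθ hdvd
  -- the normaliser
  have hTT : ∀ r ∈ R', r ∈ TT M R θ := fun r hr => (mem_Cz.1 (hR'y hr)).1
  have hry : ∀ r ∈ R', y * r = r * y := fun r hr => (mem_Cz.1 (hR'y hr)).2
  have hcj : ∀ r ∈ R', cj r (cz R) = cz R := by
    intro r hr
    rw [← cj_cz, cj_nz.2 (mem_TT.1 (hTT r hr)).1]
  have hirr : ∀ r ∈ R', ∀ ψ ∈ IrrOn (cz R), funMap (MulAut.conj r) ψ ∈ IrrOn (cz R) := by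
    intro r hr ψ hψ
    have h := IrrOn_funMap hψ r
    rwa [hcj r hr] at h
  have hBlI : Bl M (cz R) θ ⊆ IrrOn (cz R) := fun ψ h => h.1
  have hBkI : Blk M χ (cz R) ⊆ IrrOn (cz R) := fun ψ h => h.1
  have hfI : ∀ x, IntAt M (eS (cz R) (Bl M (cz R) θ) x) :=
    hEIN p M hM G (cz R) (Bl M (cz R) θ) (BCR (le_refl (cz R)) θ)
  have hFI : ∀ x, IntAt M (eS (cz R) (Blk M χ (cz R)) x) :=
    hEIN p M hM G (cz R) (Blk M χ (cz R)) (hBCL G M χ (cz R))
  have hfinv : ∀ r ∈ R', ∀ x, eS (cz R) (Bl M (cz R) θ) (r * x * r⁻¹) = eS (cz R) (Bl M (cz R) θ) x := by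
    intro r hr
    refine hIVS G (cz R) (Bl M (cz R) θ) hBlI r fun ψ hψ => ⟨hirr r hr ψ hψ.1, ?_⟩
    have h := SB_conj hψ.2 r
    rw [hcj r hr] at h
    exact h.trans (mem_TT.1 (hTT r hr)).2
  have hFinv : ∀ r ∈ R', ∀ x, eS (cz R) (Blk M χ (cz R)) (r * x * r⁻¹) = eS (cz R) (Blk M χ (cz R)) x := by
    intro r hr
    exact hIVS G (cz R) (Blk M χ (cz R)) hBkI r fun ψ hψ =>
      ⟨hirr r hr ψ hψ.1, Induces_funMap hM hψ.2 r⟩
  have hsub : Bl M (cz R) θ ⊆ Blk M χ (cz R) := by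
    intro ψ hψ
    refine ⟨hψ.1, ?_⟩
    rw [← SB_top_iff hM] at hind ⊢
    exact (TRNb le_top (fun x hx => IrrOn_zero hψ.1 hx) (fun x hx => IrrOn_zero hθ hx) hψ.2).trans hind
  -- the product of the idempotents
  obtain ⟨-, -, -, -, -, -, -, hCF, -⟩ := hCVF G
  obtain ⟨hf1, hf2, hf3, -⟩ := hIDM G (cz R) (Bl M (cz R) θ) hBlI
  obtain ⟨hF1, hF2, hF3, -⟩ := hIDM G (cz R) (Blk M χ (cz R)) hBkI
  have hprod : cv (eS (cz R) (Blk M χ (cz R))) (eS (cz R) (Bl M (cz R) θ)) = eS (cz R) (Bl M (cz R) θ) := by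
    have h1 := (hCF (cz R) _ _ hF1 hf1).1
    have h2 := (hCF (cz R) _ _ h1 hf1).2.2
    have h3 := hEXP G (cz R) _ h2 (fun ψ hψ => by
      obtain ⟨q1, q2, -⟩ := hCCI G (cz R) ψ hψ
      rw [(q1 1 _ _).2.1, q2 _ _ hF1 hf1, hF2 ψ hψ, hf2 ψ hψ]
      by_cases h : ψ ∈ Bl M (cz R) θ
      · rw [if_pos h, if_pos (hsub h)]
        ring
      · rw [if_neg h]
        ring)
    exact sub_eq_zero.1 h3
  -- the sum
  set g : G → ℂ := fun a => eS (cz R) (Blk M χ (cz R)) a * eS (cz R) (Bl M (cz R) θ) (a⁻¹ * y) with hg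
  have hsum : eS (cz R) (Bl M (cz R) θ) y = ∑ᶠ a, g a := by
    have h := congrFun hprod y
    rw [← h]
    rfl
  have hgI : ∀ x, IntAt M (g x) := fun x => (hFI x).mul hM (hfI _)
  have hginv : ∀ r ∈ R', ∀ x, g (r * x * r⁻¹) = g x := by
    intro r hr x
    simp only [hg]
    rw [hFinv r hr]
    have h : (r * x * r⁻¹)⁻¹ * y = r * (x⁻¹ * y) * r⁻¹ := by
      have h1 : r⁻¹ * y = y * r⁻¹ := by
        have h2 := hry r hr
        calc r⁻¹ * y = r⁻¹ * (y * r) * r⁻¹ := by group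
          _ = r⁻¹ * (r * y) * r⁻¹ := by rw [h2]
          _ = y * r⁻¹ := by group
      calc (r * x * r⁻¹)⁻¹ * y = r * x⁻¹ * (r⁻¹ * y) := by group
        _ = r * x⁻¹ * (y * r⁻¹) := by rw [h1]
        _ = r * (x⁻¹ * y) * r⁻¹ := by group
    rw [h, hfinv r hr]
  have hex : ∃ a ∈ cz R', ¬ InM M (eS (cz R) (Blk M χ (cz R)) a) := by
    by_contra hcon
    push Not at hcon
    refine hne ?_
    rw [hsum]
    have h1 : InM M (∑ᶠ x, if x ∈ cz R' then (0 : ℂ) else g x) := by
      refine EXT_orb hORD hM R' hR'p _ (fun x => ?_) (fun r hr x => ?_) (fun x hx => if_pos hx)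
      · split_ifs
        · exact IntAt.zero hM
        · exact hgI x
      · have hiff : r * x * r⁻¹ ∈ cz R' ↔ x ∈ cz R' := by
          constructor
          · intro h
            have h2 := (Subgroup.mem_centralizer_iff.1 h) r hr
            have h3 : x = r * x * r⁻¹ := by
              calc x = r⁻¹ * ((r * x * r⁻¹) * r) := by group
                _ = r⁻¹ * (r * (r * x * r⁻¹)) := by rw [h2]
                _ = r * x * r⁻¹ := by group
            rw [h3]
            exact h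
          · intro h
            have h2 := (Subgroup.mem_centralizer_iff.1 h) r hr
            have h3 : r * x * r⁻¹ = x := by
              rw [h2]
              group
            rw [h3]
            exact h
        by_cases hx : x ∈ cz R'
        · rw [if_pos hx, if_pos (hiff.2 hx)]
        · rw [if_neg hx, if_neg (fun h => hx (hiff.1 h))]
          exact hginv r hr x
    have h2 : InM M (∑ᶠ x, if x ∈ cz R' then g x else (0 : ℂ)) := by
      refine InM.finsum hM fun x => ?_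
      split_ifs with hx
      · exact (hcon x hx).mul_right hM (hfI _)
      · exact InM.zero hM
    have h3 : ∑ᶠ a, g a = (∑ᶠ x, if x ∈ cz R' then (0 : ℂ) else g x) + ∑ᶠ x, if x ∈ cz R' then g x else (0 : ℂ) := by
      rw [finsum_eq_sum_of_fintype, finsum_eq_sum_of_fintype, finsum_eq_sum_of_fintype, ← Finset.sum_add_distrib]
      refine Finset.sum_congr rfl fun x _ => ?_
      split_ifs <;> ring
    rw [h3]
    exact h1.add hM h2
  obtain ⟨a, ha, hna⟩ := hex
  refine ⟨R', hR'p, hRR', hR'n, a, ha, fun hc => hna ?_⟩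
  have haR : a ∈ cz R := cz_mono hRR' ha
  have h1 := hEQP p M hM G ⊤ R le_top hRp hRc χ a (by rw [top_inf_eq]; exact haR)
  rw [top_inf_eq] at h1
  have h2 := hc.sub hM h1
  rwa [sub_sub_cancel] at h2

end Pool.Agent.FI
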