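import Pool.Agent.helper59.FI.SpecB

/-!
# Project fi, block A2, row ORD: sums over orbits
-/

set_option autoImplicit false

namespace Pool.Agent.FI

open Pool.Agent.helper58.DC Pool.Agent.DI Pool.Agent.GR Pool.Agent.OB

/-- The sum of an invariant function, as a sum over representatives of the orbits. -/
theorem ORD_sum {Γ X : Type} [Group Γ] [Finite Γ] [Finite X] (ρ : Γ →* Equiv.Perm X) (F : X → ℂ)
    (hF : ∀ g x, F (ρ g x) = F x) :
    ∃ (Q : Type) (_ : Fintype Q) (r : Q → X) (n : Q → ℕ),
      (∀ q, n q * Nat.card {g : Γ // ρ g (r q) = r q} = Nat.card Γ) ∧ ∑ᶠ x, F x = ∑ q, (n q : ℂ) * F (r q) := by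
  classical
  haveI := Fintype.ofFinite X
  haveI := Fintype.ofFinite Γ
  letI : MulAction Γ X := MulAction.compHom X ρ
  have hsm : ∀ (g : Γ) (x : X), g • x = ρ g x := fun g x => rfl
  haveI : Finite (Quotient (MulAction.orbitRel Γ X)) := inferInstance
  letI : Fintype (Quotient (MulAction.orbitRel Γ X)) := Fintype.ofFinite _
  refine ⟨Quotient (MulAction.orbitRel Γ X), inferInstance, Quotient.out,
    fun q => Nat.card (MulAction.orbit Γ (Quotient.out q)), fun q => ?_, ?_⟩
  · have h1 := MulAction.card_orbit_mul_card_stabilizer_eq_card_group Γ (Quotient.out q)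
    show Nat.card (MulAction.orbit Γ (Quotient.out q)) * Nat.card {g : Γ // ρ g (Quotient.out q) = Quotient.out q} =
      Nat.card Γ
    have h2 : Nat.card {g : Γ // ρ g (Quotient.out q) = Quotient.out q} =
        Nat.card (MulAction.stabilizer Γ (Quotient.out q)) :=
      Nat.card_congr (Equiv.subtypeEquivRight fun g => Iff.rfl)
    rw [h2, Nat.card_eq_fintype_card, Nat.card_eq_fintype_card, Nat.card_eq_fintype_card]
    exact h1
  · rw [finsum_eq_sum_of_fintype,
      ← Finset.sum_fiberwise Finset.univ (fun x : X => (Quotient.mk'' x : Quotient (MulAction.orbitRel Γ X))) F]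
    refine Finset.sum_congr rfl fun q _ => ?_
    have h2 : ∀ x ∈ Finset.univ.filter
        (fun x : X => (Quotient.mk'' x : Quotient (MulAction.orbitRel Γ X)) = q), F x = F (Quotient.out q) := by
      intro x hx
      rw [Finset.mem_filter] at hx
      have h3 : (Quotient.mk'' x : Quotient (MulAction.orbitRel Γ X)) = Quotient.mk'' (Quotient.out q) := by
        rw [hx.2]
        exact (Quotient.out_eq' q).symm
      have h4 := Quotient.exact' h3
      rw [MulAction.orbitRel_apply] at h4
      obtain ⟨g, hg⟩ := h4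
      have h5 : ρ g (Quotient.out q) = x := hg
      rw [← h5, hF]
    rw [Finset.sum_congr rfl h2, Finset.sum_const, nsmul_eq_mul]
    congr 2
    show _ = Nat.card (MulAction.orbit Γ (Quotient.out q))
    rw [Nat.card_eq_fintype_card, ← Fintype.card_subtype]
    refine Fintype.card_congr (Equiv.subtypeEquivRight fun x => ?_)
    constructor
    · intro h
      have h3 : (Quotient.mk'' x : Quotient (MulAction.orbitRel Γ X)) = Quotient.mk'' (Quotient.out q) := by
        rw [h]
        exact (Quotient.out_eq' q).symm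
      have h4 := Quotient.exact' h3
      rwa [MulAction.orbitRel_apply] at h4
    · intro h
      have h4 : (Quotient.mk'' x : Quotient (MulAction.orbitRel Γ X)) = Quotient.mk'' (Quotient.out q) :=
        Quotient.sound' (MulAction.orbitRel_apply.2 h)
      rw [h4]
      exact Quotient.out_eq' q

theorem ORD_term {Γ X : Type} [Group Γ] [Finite Γ] [Finite X] (ρ : Γ →* Equiv.Perm X) (x : X) (n N : ℕ)
    (hn : n * Nat.card {g : Γ // ρ g x = x} = Nat.card Γ)
    (h : N * Nat.card {g : Γ // ρ g x = x} ∣ Nat.card Γ) : ∃ k : ℕ, n = N * k := by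
  have hpos : 0 < Nat.card {g : Γ // ρ g x = x} := by
    haveI : Nonempty {g : Γ // ρ g x = x} := ⟨⟨1, by rw [map_one]; rfl⟩⟩
    exact Nat.card_pos
  rw [← hn] at h
  exact Nat.dvd_of_mul_dvd_mul_right hpos h

theorem ORD : ORD_stmt := by
  intro p M hM Γ X _ _ _ ρ N hN F hFI hF
  obtain ⟨Q, _, r, n, hn, hsum⟩ := ORD_sum ρ F hF
  have hNC : (N : ℂ) ≠ 0 := Nat.cast_ne_zero.2 hN
  have hdiv : (∑ᶠ x, F x) / N = ∑ q, ((n q : ℂ) * F (r q)) / N := by
    rw [hsum, Finset.sum_div]
  refine ⟨fun h => ?_, fun h => ?_, fun h hI => ?_⟩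
  · rw [hdiv]
    refine IntAt.sum hM _ fun q _ => ?_
    by_cases h0 : F (r q) = 0
    · rw [h0, mul_zero, zero_div]
      exact IntAt.zero hM
    · obtain ⟨k, hk⟩ := ORD_term ρ (r q) (n q) N (hn q) (h (r q) h0)
      have e : ((n q : ℂ) * F (r q)) / N = (k : ℂ) * F (r q) := by
        rw [hk]
        push_cast
        field_simp
      rw [e]
      exact (IntAt.natCast hM k).mul hM (hFI _)
  · rw [hdiv]
    refine InM.sum hM _ fun q _ => ?_
    by_cases h0 : F (r q) = 0
    · rw [h0, mul_zero, zero_div]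
      exact InM.zero hM
    · obtain ⟨k, hk⟩ := ORD_term ρ (r q) (n q) (N * p) (hn q) (h (r q) h0)
      have e : ((n q : ℂ) * F (r q)) / N = ((p * k : ℕ) : ℂ) * F (r q) := by
        rw [hk]
        push_cast
        field_simp
      rw [e]
      exact ((InM.natCast hM (p * k)).2 (dvd_mul_right p k)).mul_right hM (hFI _)
  · rw [hdiv]
    refine InM.sum hM _ fun q _ => ?_
    by_cases h0 : F (r q) = 0
    · rw [h0, mul_zero, zero_div]
      exact InM.zero hM
    · obtain ⟨k, hk⟩ := ORD_term ρ (r q) (n q) N (hn q) (h (r q) h0)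
      have e : ((n q : ℂ) * F (r q)) / N = (k : ℂ) * F (r q) := by
        rw [hk]
        push_cast
        field_simp
      rw [e]
      exact (hI _).mul_left hM (IntAt.natCast hM k)

end Pool.Agent.FI
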